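import Pool.Agent.ATP.Stmts
import Pool.Agent.Helper32_AT2.FST
import Pool.Agent.Helper65_AT2.TYA
import Pool.Agent.Helper62_AT3.LCJ
import Pool.Agent.Helper69_K9.Fmg
import Pool.Agent.Helper97_K9.ORB

/-!
# ATP, row PMG: every pair under the block `e` is contained in a conjugate of `(V, γ)`
-/

open scoped BigOperators

noncomputable section

namespace Pool.Agent.PP.TP.H86

open Pool.Agent.Helper51_AWC Pool.Agent.Helper79_WRA Pool.Agent.PP Pool.Agent.PP.KF
open Pool.Agent.PP.K9 Pool.Agent.PP.K9.H97 Pool.Agent.PP.H75 Pool.Agent.PP.T3 Pool.Agent.PP.T2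
open Pool.Agent.PP.TB

attribute [local instance] Ideal.Quotient.field

set_option linter.unusedSectionVars false

section tools

variable {F G : Type} [Field F] [Group G] [Finite G]

theorem cj_cj (g h : G) (a : G → F) : cj g (cj h a) = cj (g * h) a := by
  funext x
  unfold cj
  congr 1
  group

theorem cj_one' (a : G → F) : cj (1 : G) a = a := by
  funext x
  unfold cj
  congr 1
  group

end tools

/-- row PMG -/
theorem pmg (hPMX : PmxStmt) (hPXB : PxbStmt) (hFMG : K9.FmgStmt) (hORB : K9.OrbStmt) :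
    PmgStmt := by
  intro ℓ _ M _ hM G _ _ e V he hV γ hγ hγe Q b hQ hQb
  have hF : GoodF ℓ (FF M) := H50.fld ℓ Fact.out M hM
  obtain ⟨x, γ', hP, hle⟩ := hPMX ℓ M hM G e V he hV Q b hQ hQb
  have hixe : Ix (⊤ : Subgroup G) e := by
    refine ⟨fun x hx => absurd (Subgroup.mem_top x) hx, ?_, ?_⟩
    · intro x y
      exact he.1.1 x y
    · rw [← H75.mulF_res (⊤ : Subgroup G) e (fun x hx => absurd (Subgroup.mem_top x) hx), he.1.2]
  have hce : mulF (br (conjS x V) e) γ' = γ' :=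
    (hPXB ℓ (FF M) hF G ⊤ e hixe _ _ hP le_top Q b hQ le_top hle).1 hQb
  -- conjugate back
  obtain ⟨N, hN⟩ : ∃ N : Subgroup G, N = Subgroup.normalizer (V : Set G) := ⟨_, rfl⟩
  obtain ⟨C, hC⟩ : ∃ C : Subgroup G, C = Subgroup.centralizer (V : Set G) := ⟨_, rfl⟩
  have hCN : C ≤ N := by
    rw [hC, hN]
    exact Subgroup.centralizer_le_normalizer _
  have hγC : Bx C γ := hC ▸ hγ
  have hcent : ∀ t : G, t ∈ C ↔ x⁻¹⁻¹ * t * x⁻¹ ∈ Subgroup.centralizer ((conjS x V : Subgroup G) : Set G) := by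
    intro t
    rw [hC, inv_inv, Subgroup.mem_centralizer_iff, Subgroup.mem_centralizer_iff]
    constructor
    · intro h v hv
      have h2 := h (x⁻¹ * v * x) (mem_conjS.1 hv)
      calc v * (x * t * x⁻¹) = x * ((x⁻¹ * v * x) * t) * x⁻¹ := by group
        _ = x * (t * (x⁻¹ * v * x)) * x⁻¹ := by rw [h2]
        _ = x * t * x⁻¹ * v := by group
    · intro h v hv
      have h2 := h (x * v * x⁻¹) (mem_conjS.2 (by
        have h3 : x⁻¹ * (x * v * x⁻¹) * x = v := by group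
        rwa [h3]))
      calc v * t = x⁻¹ * ((x * v * x⁻¹) * (x * t * x⁻¹)) * x := by group
        _ = x⁻¹ * ((x * t * x⁻¹) * (x * v * x⁻¹)) * x := by rw [h2]
        _ = t * v := by group
  have hγ1 : Bx C (cj x⁻¹ γ') := T3.H62.bx_cj hcent hP.blk
  have hγ1e : mulF (br V e) (cj x⁻¹ γ') = cj x⁻¹ γ' := by
    have h1 := congrArg (cj x⁻¹) hce
    have he2 : cj x e = e := (cj_eq_iff x e).2 (fun t => he.1.1 t x)
    have h2 : br (conjS x V) e = cj x (br V e) := by
      rw [← T2.H65.cj_br, he2]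
    rw [H75.cj_mulF, h2, cj_cj, inv_mul_cancel, cj_one'] at h1
    exact h1
  -- `br_V(e)` is a block of `N`, supported on `C`
  obtain ⟨-, ⟨hblk, -⟩, -⟩ := hFMG ℓ M hM G e he V hV
  have hNC : N ≤ Subgroup.normalizer (C : Set G) := by
    rw [hN, hC]
    intro g hg
    rw [Subgroup.mem_normalizer_iff]
    have key : ∀ g ∈ Subgroup.normalizer (V : Set G), ∀ y : G,
        y ∈ Subgroup.centralizer (V : Set G) →
        g * y * g⁻¹ ∈ Subgroup.centralizer (V : Set G) := by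
      intro g hg y hy
      rw [Subgroup.mem_centralizer_iff] at hy ⊢
      intro r hr
      have h2 : g⁻¹ * r * g ∈ V := by
        have := (Subgroup.mem_normalizer_iff.1 (Subgroup.inv_mem _ hg) r).1 hr
        rwa [inv_inv] at this
      have h3 := hy _ h2
      calc r * (g * y * g⁻¹) = g * (g⁻¹ * r * g * y) * g⁻¹ := by group
        _ = g * (y * (g⁻¹ * r * g)) * g⁻¹ := by rw [h3]
        _ = g * y * g⁻¹ * r := by group
    intro y
    refine ⟨key g hg y, fun h => ?_⟩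
    have h1 := key g⁻¹ (inv_mem hg) _ h
    have h2 : g⁻¹ * (g * y * g⁻¹) * g⁻¹⁻¹ = y := by group
    rwa [h2] at h1
  have hbs : ∀ t, t ∉ C → br V e t = 0 := fun t ht => br_out e (fun h => ht (hC ▸ h))
  have hblk' : IsBlk (fun t : N => br V e t) := by
    subst hN
    exact hblk
  obtain ⟨n, hn, hnc⟩ := hORB ℓ (FF M) hF G N C hCN hNC (br V e) hbs hblk' γ (cj x⁻¹ γ')
    hγC.supp hγ1.supp hγC.blk hγ1.blk hγe hγ1e
  have hcj : cj x⁻¹ γ' = cj n⁻¹ γ := by
    funext t
    rw [hnc t]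
    unfold cj
    rw [inv_inv]
  have hγ' : γ' = cj (x * n⁻¹) γ := by
    rw [← cj_cj, ← hcj, cj_cj, mul_inv_cancel, cj_one']
  have hconj : conjS (x * n⁻¹) V = conjS x V := by
    ext t
    rw [mem_conjS, mem_conjS]
    have h1 : (x * n⁻¹)⁻¹ * t * (x * n⁻¹) = n * (x⁻¹ * t * x) * n⁻¹ := by group
    rw [h1]
    exact (Subgroup.mem_normalizer_iff.1 (hN ▸ hn) _).symm
  refine ⟨x * n⁻¹, ?_, ?_⟩
  · rw [hconj, ← hγ']
    exact hP
  · rw [hconj, ← hγ']
    exact hle

/-- row PMG, with the proved statements -/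
theorem pmg' (hPMX : PmxStmt) (hPXB : PxbStmt) : PmgStmt :=
  pmg hPMX hPXB K9.H69.fmg K9.H97.orb

end Pool.Agent.PP.TP.H86
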